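import Mathlib
import Pool.Agent.H22.DivComp

set_option autoImplicit false

namespace Pool.Agent.Results.MP_d29ee2_al.Universal

universe u

/-- Every element has an n-th root for every n at least 1. -/
def Divisible (D : Type u) [Group D] : Prop := ∀ (d : D) (n : ℕ), 0 < n → ∃ x : D, x ^ n = d

/-- The isolator of S in T: the smallest subgroup containing S and closed under roots. -/
def isolator {T : Type u} [Group T] (S : Subgroup T) : Subgroup T :=
  sInf {J : Subgroup T | S ≤ J ∧ ∀ (g : T) (n : ℕ), 0 < n → g ^ n ∈ J → g ∈ J}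

/-- An injective order-preserving homomorphism. -/
def OrderEmb {G H : Type u} [Group G] [LinearOrder G] [Group H] [LinearOrder H]
    (ι : G →* H) : Prop := Function.Injective ι ∧ Monotone ι

/-- The map makes the ordered group H a minimal divisible completion of G. -/
def IsMinDivCompletion {G H : Type u} [Group G] [LinearOrder G] [Group H] [LinearOrder H]
    (ι : G →* H) : Prop :=
  OrderEmb ι ∧ Divisible H ∧ isolator ι.range = ⊤

theorem compl_iff {G H : Type u} [Group G] [LinearOrder G] [Group H] [LinearOrder H]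
    (ι : G →* H) : IsMinDivCompletion ι ↔ Pool.Agent.H22.DivComp.IsCompletion ι := by
  refine and_congr ⟨fun h => h.2.strictMono_of_injective h.1, fun h => ⟨h.injective, h.monotone⟩⟩
    (and_congr Iff.rfl ?_)
  rw [isolator, sInf_eq_top]
  exact ⟨fun h J a b => h J ⟨by rintro _ ⟨g, rfl⟩; exact a g, b⟩,
    fun h J hJ => h J (fun g => hJ.1 ⟨g, rfl⟩) hJ.2⟩

/-- A universal minimal divisible completion exists. -/
theorem result (G : Type u) [Group G] [LinearOrder G] [MulLeftMono G] [MulRightMono G]
    (hG : ∃ (D : Type u) (_ : Group D) (_ : LinearOrder D) (_ : MulLeftMono D)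
      (_ : MulRightMono D) (δ : G →* D), OrderEmb δ ∧ Divisible D) :
    ∃ (K : Type u) (_ : Group K) (_ : LinearOrder K) (_ : MulLeftMono K) (_ : MulRightMono K)
      (κ : G →* K), IsMinDivCompletion κ ∧
      ∀ (H : Type u) [Group H] [LinearOrder H] [MulLeftMono H] [MulRightMono H] (ι : G →* H),
        IsMinDivCompletion ι →
          ∃ φ : K →* H, Function.Surjective φ ∧ ∀ g : G, φ (κ g) = ι g := by
  obtain ⟨D, _, _, _, _, δ, h1, h2⟩ := hG
  obtain ⟨K, i1, i2, i3, i4, κ, h3, h4⟩ := Pool.Agent.H22.DivComp.main.{u, u}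
    (Pool.Agent.H22.DivComp.exists_comp D h2 δ (h1.2.strictMono_of_injective h1.1))
  exact ⟨K, i1, i2, i3, i4, κ, (compl_iff κ).2 h3, fun H _ _ _ _ ι hι =>
    h4 ⟨H, ι, (compl_iff ι).1 hι⟩⟩

end Pool.Agent.Results.MP_d29ee2_al.Universal
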